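import Mathlib.NumberTheory.FrobeniusNumber
import Mathlib.Data.Finset.Sort
import Mathlib.Tactic

set_option autoImplicit false

/-!
# Adjoining the Frobenius number need not preserve greediness

`S = {4, 6, 9}` is greedy with Frobenius number `11`, but `{4, 6, 9, 11}` is not greedy: for
`k = 27` the greedy cost is `4` while `27 = 9 + 9 + 9`.
-/

namespace Pool.Agent.Results.MP_8ea6c6_co.AdjoinFrobenius

/-- The numerical semigroup `⟨S⟩`. -/
def semi (S : Finset ℕ) : AddSubmonoid ℕ := AddSubmonoid.closure (S : Set ℕ)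

/-- The cost of the output of the greedy algorithm for `k`, run through the list `L` of
generators: for the first generator `s` of the list take the largest `q` with `q * s ≤ k` and
`k - q * s ∈ ⟨S⟩`, replace `k` by `k - q * s`, and pass to the next generator. -/
noncomputable def greedyAux (S : Finset ℕ) : List ℕ → ℕ → ℕ
  | [], _ => 0
  | s :: L, k =>
    sSup {q : ℕ | q * s ≤ k ∧ k - q * s ∈ semi S} +
      greedyAux S L (k - sSup {q : ℕ | q * s ≤ k ∧ k - q * s ∈ semi S} * s)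

/-- The greedy cost: the generators are used in decreasing order. -/
noncomputable def GreedyCost (S : Finset ℕ) (k : ℕ) : ℕ := greedyAux S (S.sort (· ≥ ·)) k

/-- The least cost of a representation of `k` by the elements of `S`. -/
noncomputable def MinCost (S : Finset ℕ) (k : ℕ) : ℕ :=
  sInf {c : ℕ | ∃ a : ℕ → ℕ, ∑ s ∈ S, a s * s = k ∧ ∑ s ∈ S, a s = c}

/-- `S` is greedy. -/
def IsGreedy (S : Finset ℕ) : Prop := ∀ k ∈ semi S, GreedyCost S k = MinCost S k

theorem greedyAux_cons (S : Finset ℕ) (s : ℕ) (L : List ℕ) (k q : ℕ) (h1 : q * s ≤ k)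
    (h2 : k - q * s ∈ semi S)
    (h3 : ∀ q' : ℕ, q' * s ≤ k → k - q' * s ∈ semi S → q' ≤ q) :
    greedyAux S (s :: L) k = q + greedyAux S L (k - q * s) := by
  have h : sSup {q : ℕ | q * s ≤ k ∧ k - q * s ∈ semi S} = q :=
    IsGreatest.csSup_eq ⟨⟨h1, h2⟩, fun q' hq' => h3 q' hq'.1 hq'.2⟩
  rw [greedyAux, h]

theorem greedyAux_nil (S : Finset ℕ) (k : ℕ) : greedyAux S [] k = 0 := rfl

/-! ### The semigroup generated by `4, 6, 9` -/

theorem sort3 : ({4, 6, 9} : Finset ℕ).sort (· ≥ ·) = [9, 6, 4] := by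
  have e : ({4, 6, 9} : Finset ℕ) = [9, 6, 4].toFinset := by decide
  rw [e]
  exact (List.toFinset_sort (· ≥ ·) (by decide)).mpr (by decide)

theorem sort4 : ({4, 6, 9, 11} : Finset ℕ).sort (· ≥ ·) = [11, 9, 6, 4] := by
  have e : ({4, 6, 9, 11} : Finset ℕ) = [11, 9, 6, 4].toFinset := by decide
  rw [e]
  exact (List.toFinset_sort (· ≥ ·) (by decide)).mpr (by decide)

theorem mem3 (k : ℕ) : k ∈ semi {4, 6, 9} ↔
    (k = 0 ∨ k = 4 ∨ k = 6 ∨ k = 8 ∨ k = 9 ∨ k = 10 ∨ 12 ≤ k) := by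
  constructor
  · intro h
    unfold semi at h
    induction h using AddSubmonoid.closure_induction with
    | mem x hx => simp at hx; omega
    | zero => simp
    | add x y _ _ hx hy => omega
  · have g4 : 4 ∈ semi {4, 6, 9} := AddSubmonoid.subset_closure (by simp)
    have g6 : 6 ∈ semi {4, 6, 9} := AddSubmonoid.subset_closure (by simp)
    have g9 : 9 ∈ semi {4, 6, 9} := AddSubmonoid.subset_closure (by simp)
    have h8 : 8 ∈ semi {4, 6, 9} := add_mem g4 g4
    have h10 : 10 ∈ semi {4, 6, 9} := add_mem g4 g6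
    have h12 : 12 ∈ semi {4, 6, 9} := add_mem g6 g6
    have h13 : 13 ∈ semi {4, 6, 9} := add_mem g4 g9
    have h14 : 14 ∈ semi {4, 6, 9} := add_mem h8 g6
    have h15 : 15 ∈ semi {4, 6, 9} := add_mem g6 g9
    have big : ∀ n : ℕ, 12 ≤ n → n ∈ semi {4, 6, 9} := by
      intro n
      induction n using Nat.strong_induction_on with
      | _ n ih =>
        intro hn
        rcases (by omega : n = 12 ∨ n = 13 ∨ n = 14 ∨ n = 15 ∨ 16 ≤ n) with
          h | h | h | h | h
        · subst h; exact h12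
        · subst h; exact h13
        · subst h; exact h14
        · subst h; exact h15
        · have := add_mem (ih (n - 4) (by omega) (by omega)) g4
          rwa [Nat.sub_add_cancel (by omega)] at this
    rintro (h | h | h | h | h | h | h)
    · subst h; exact zero_mem _
    · subst h; exact g4
    · subst h; exact g6
    · subst h; exact h8
    · subst h; exact g9
    · subst h; exact h10
    · exact big k h

theorem mem4 (k : ℕ) : k ∈ semi {4, 6, 9, 11} ↔ (k = 0 ∨ k = 4 ∨ k = 6 ∨ 8 ≤ k) := by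
  constructor
  · intro h
    unfold semi at h
    induction h using AddSubmonoid.closure_induction with
    | mem x hx => simp at hx; omega
    | zero => simp
    | add x y _ _ hx hy => omega
  · intro h
    have hsub : semi {4, 6, 9} ≤ semi {4, 6, 9, 11} := by
      unfold semi
      apply AddSubmonoid.closure_mono
      intro x hx
      simp at hx ⊢
      omega
    by_cases h11 : k = 11
    · subst h11
      exact AddSubmonoid.subset_closure (by simp)
    · exact hsub ((mem3 k).mpr (by omega))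

theorem frobenius3 : FrobeniusNumber 11 (({4, 6, 9} : Finset ℕ) : Set ℕ) := by
  constructor
  · intro h
    have := (mem3 11).mp h
    omega
  · intro k hk
    by_contra hlt
    exact hk ((mem3 k).mpr (by omega))

/-- The greedy cost for `{4, 6, 9}`. -/
theorem greedy3 (k w c6 c4 : ℕ) (hk : w ≤ k) (hmod : k % 9 = w % 9)
    (hw : (w = 0 ∧ c6 = 0 ∧ c4 = 0) ∨ (w = 10 ∧ c6 = 1 ∧ c4 = 1) ∨ (w = 20 ∧ c6 = 2 ∧ c4 = 2) ∨
      (w = 12 ∧ c6 = 2 ∧ c4 = 0) ∨ (w = 4 ∧ c6 = 0 ∧ c4 = 1) ∨ (w = 14 ∧ c6 = 1 ∧ c4 = 2) ∨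
      (w = 6 ∧ c6 = 1 ∧ c4 = 0) ∨ (w = 16 ∧ c6 = 2 ∧ c4 = 1) ∨ (w = 8 ∧ c6 = 0 ∧ c4 = 2)) :
    GreedyCost {4, 6, 9} k = (k - w) / 9 + (c6 + c4) := by
  unfold GreedyCost
  rw [sort3, greedyAux_cons _ 9 _ k ((k - w) / 9), greedyAux_cons _ 6 _ _ c6,
    greedyAux_cons _ 4 _ _ c4, greedyAux_nil]
  · ring
  · omega
  · rw [mem3]; omega
  · intro q' h1 h2
    rw [mem3] at h2
    omega
  · omega
  · rw [mem3]; omega
  · intro q' h1 h2
    rw [mem3] at h2
    omega
  · omega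
  · rw [mem3]; omega
  · intro q' h1 h2
    rw [mem3] at h2
    omega

theorem isGreedy3 : IsGreedy {4, 6, 9} := by
  intro k hk
  rw [mem3] at hk
  obtain ⟨w, c6, c4, hwk, hmod, hw⟩ : ∃ w c6 c4 : ℕ, w ≤ k ∧ k % 9 = w % 9 ∧
    ((w = 0 ∧ c6 = 0 ∧ c4 = 0) ∨ (w = 10 ∧ c6 = 1 ∧ c4 = 1) ∨ (w = 20 ∧ c6 = 2 ∧ c4 = 2) ∨
      (w = 12 ∧ c6 = 2 ∧ c4 = 0) ∨ (w = 4 ∧ c6 = 0 ∧ c4 = 1) ∨ (w = 14 ∧ c6 = 1 ∧ c4 = 2) ∨
      (w = 6 ∧ c6 = 1 ∧ c4 = 0) ∨ (w = 16 ∧ c6 = 2 ∧ c4 = 1) ∨ (w = 8 ∧ c6 = 0 ∧ c4 = 2)) := by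
    rcases (by omega : k % 9 = 0 ∨ k % 9 = 1 ∨ k % 9 = 2 ∨ k % 9 = 3 ∨ k % 9 = 4 ∨ k % 9 = 5 ∨
      k % 9 = 6 ∨ k % 9 = 7 ∨ k % 9 = 8) with h | h | h | h | h | h | h | h | h
    · exact ⟨0, 0, 0, by omega, by omega, by omega⟩
    · exact ⟨10, 1, 1, by omega, by omega, by omega⟩
    · exact ⟨20, 2, 2, by omega, by omega, by omega⟩
    · exact ⟨12, 2, 0, by omega, by omega, by omega⟩
    · exact ⟨4, 0, 1, by omega, by omega, by omega⟩
    · exact ⟨14, 1, 2, by omega, by omega, by omega⟩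
    · exact ⟨6, 1, 0, by omega, by omega, by omega⟩
    · exact ⟨16, 2, 1, by omega, by omega, by omega⟩
    · exact ⟨8, 0, 2, by omega, by omega, by omega⟩
  rw [greedy3 k w c6 c4 hwk hmod hw]
  symm
  apply IsLeast.csInf_eq
  constructor
  · refine ⟨fun s => if s = 9 then (k - w) / 9 else if s = 6 then c6 else c4, ?_, ?_⟩
    · simp
      omega
    · simp
      omega
  · rintro c ⟨a, ha, rfl⟩
    simp at ha ⊢
    omega

theorem not_isGreedy4 : ¬ IsGreedy {4, 6, 9, 11} := by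
  intro h
  have h27 := h 27 ((mem4 27).mpr (by omega))
  have hmin : MinCost {4, 6, 9, 11} 27 ≤ 3 := by
    apply Nat.sInf_le
    exact ⟨fun s => if s = 9 then 3 else 0, by simp, by simp⟩
  have hgr : GreedyCost {4, 6, 9, 11} 27 = 4 := by
    unfold GreedyCost
    rw [sort4, greedyAux_cons _ 11 _ 27 1, greedyAux_cons _ 9 _ _ 0, greedyAux_cons _ 6 _ _ 2,
      greedyAux_cons _ 4 _ _ 1, greedyAux_nil]
    all_goals try rw [mem4]
    all_goals try omega
    all_goals
      intro q' h1 h2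
      rw [mem4] at h2
      omega
  omega

/-- There is a greedy set `S` of positive integers with `gcd(S) = 1`, `1 ∉ S`, whose Frobenius
number `F` is larger than all elements of `S`, such that `S ∪ {F}` is not greedy. -/
theorem result : ∃ (S : Finset ℕ) (F : ℕ),
    (∀ s ∈ S, 0 < s) ∧ S.gcd id = 1 ∧ 1 ∉ S ∧ FrobeniusNumber F (S : Set ℕ) ∧
      (∀ s ∈ S, s < F) ∧ IsGreedy S ∧ ¬ IsGreedy (insert F S) := by
  refine ⟨{4, 6, 9}, 11, by simp, by decide, by simp, frobenius3, by simp, isGreedy3, ?_⟩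
  have e : (insert 11 {4, 6, 9} : Finset ℕ) = {4, 6, 9, 11} := by decide
  rw [e]
  exact not_isGreedy4

end Pool.Agent.Results.MP_8ea6c6_co.AdjoinFrobenius
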